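import Pool.Agent.H43.PM.M42
import Pool.Agent.H43.PM.M43

/-!
# PSI BoxC: the window averages of a box of type II

`f = tw χ (Pp κ j)`, supported on `n < 192 X =: N`; `SS f N ≤ X L^C` (`prod_bd`, `tau_mom`); `K = ⌈L^A2⌉`, `100 SS/K^2 ≤ X/L^(A+1)`;
`e' = min e (1/100) / 2`; `box_i e'` with `A' = A + A2 + 1` gives `K'`; `T0 = L^K'`, `T = X^(5/6 - e')`;
`pars` with `hs = log(1 + H/X_i)`, `hl = log(1+H1/X_i)` (`y - y^2/2 ≤ log(1+y) ≤ y`; `|hs/H - hl/H1| ≤ H1/X^2`).  The term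
`X K T0^3 H1^2 N/X^4 SS ≤ X L^(A2 + 3K' - 2 A1 + C')` is small for `A1 ≥ A0`; `(1/H^2)(1/T + N(1+log N)/T^2) SS X K` saves a power (`H T ≥ X^(1+e/2)`).
If `3 X < ∏ 2^(j i)` or `2^r ∏ 2^(j i) < X` then `D f H H1 x = 0` (`prod_supp`; the windows lie in `(X, 3X]`).
-/

set_option autoImplicit false

namespace Pool.Agent.H88.PSI

open Finset MeasureTheory

private theorem BoxC_D0 (f : ℕ → ℂ) (X H H1 x : ℕ) (hx : x ∈ Ico X (2 * X)) (hH : H ≤ X)
    (hH1 : H1 ≤ X) (h : ∀ n, X < n → n ≤ 3 * X → f n = 0) : D f H H1 x = 0 := by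
  rw [mem_Ico] at hx
  have h1 : ∀ H' : ℕ, H' ≤ X → W f H' x = 0 := by
    intro H' hH'
    unfold W
    apply sum_eq_zero
    intro n hn
    rw [mem_Ioc] at hn
    exact h n (by omega) (by omega)
  unfold D
  rw [h1 H hH, h1 H1 hH1]
  simp

private theorem BoxC_log (y : ℝ) (hy : 0 ≤ y) : y - y ^ 2 / 2 ≤ Real.log (1 + y) := by
  have h := Real.le_log_one_add_of_nonneg hy
  refine le_trans ?_ h
  rw [le_div_iff₀ (by linarith)]
  nlinarith [mul_nonneg hy (sq_nonneg y), sq_nonneg y]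

private theorem BoxC_hd (X Xi H H1 : ℝ) (hX : 0 < X) (hXi : X ≤ Xi) (hH : 0 < H) (hH1 : H ≤ H1) :
    |Real.log (1 + H / Xi) / H - Real.log (1 + H1 / Xi) / H1| ≤ H1 / X ^ 2 := by
  have hXi0 : 0 < Xi := by linarith
  have hH10 : 0 < H1 := by linarith
  have key : ∀ h : ℝ, 0 < h → h ≤ H1 →
      1 / Xi - H1 / (2 * Xi ^ 2) ≤ Real.log (1 + h / Xi) / h ∧ Real.log (1 + h / Xi) / h ≤ 1 / Xi := by
    intro h hh hh1
    have h0 : 0 ≤ h / Xi := by positivity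
    constructor
    · rw [le_div_iff₀ hh]
      refine le_trans ?_ (BoxC_log _ h0)
      have : (1 / Xi - H1 / (2 * Xi ^ 2)) * h ≤ (1 / Xi - h / (2 * Xi ^ 2)) * h := by
        apply mul_le_mul_of_nonneg_right _ hh.le
        have := div_le_div_of_nonneg_right hh1 (by positivity : (0:ℝ) ≤ 2 * Xi ^ 2)
        linarith
      refine this.trans (le_of_eq ?_)
      field_simp
    · rw [div_le_iff₀ hh]
      have := Real.log_le_sub_one_of_pos (by positivity : 0 < 1 + h / Xi)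
      have e1 : 1 / Xi * h = h / Xi := by ring
      rw [e1]; linarith
  obtain ⟨a1, a2⟩ := key H hH hH1
  obtain ⟨b1, b2⟩ := key H1 hH10 le_rfl
  have h3 : H1 / (2 * Xi ^ 2) ≤ H1 / X ^ 2 := by
    apply div_le_div_of_nonneg_left hH10.le (by positivity)
    have : X ^ 2 ≤ Xi ^ 2 := pow_le_pow_left₀ hX.le hXi 2
    nlinarith [sq_nonneg Xi]
  rw [abs_le]
  constructor <;> linarith

private theorem BoxC_ss : ∃ X0 : ℕ, ∀ X : ℕ, X0 ≤ X →
    ∀ (r d : ℕ) (χ : DirichletCharacter ℂ d) (κ : Fin r → Fin 3) (j : Fin r → ℕ), r ≤ 6 → 1 ≤ d →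
    (∀ i, (2 : ℝ) ^ j i ≤ (X : ℝ) ^ (11 / 24 : ℝ)) → ∏ i, 2 ^ j i ≤ 3 * X →
    SS (tw χ (Pp κ j)) (192 * X) ≤ X * Real.log X ^ 4109 := by
  obtain ⟨m, hm⟩ : ∃ m : ℕ, 2 ^ 12 = m := ⟨_, rfl⟩
  obtain ⟨c, hc⟩ : ∃ c : ℝ, c = 192 * 2 ^ 12 * 3 ^ m := ⟨_, rfl⟩
  obtain ⟨X1, H1⟩ := Pool.Agent.H80.LV.log_ge (max c 200)
  refine ⟨max X1 3, ?_⟩
  intro X hX r d χ κ j hr hd hj1 hj2
  rw [max_le_iff] at hX
  have hX3 := hX.2
  have hXr : (3 : ℝ) ≤ X := by exact_mod_cast hX3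
  have hX0 : (0 : ℝ) < X := by linarith
  have hLc := H1 X hX.1
  have hL1 : c ≤ Real.log X := (le_max_left _ _).trans hLc
  have hL2 : (200 : ℝ) ≤ Real.log X := (le_max_right _ _).trans hLc
  set L := Real.log X with hL
  have hbox := BoxI_box X hX3 χ κ j hr hj1 hj2
  have e1 : tw χ (Pp κ j) = ∏ i, tw χ (pc (κ i) (j i)) := by
    unfold Pp
    exact tw_prod χ univ _ (by omega)
  have h2L : 1 ≤ 2 * L := by linarith
  have hpt : ∀ n ∈ Icc 1 (192 * X), ‖tw χ (Pp κ j) n‖ ^ 2 ≤ (2 * L) ^ 12 * tau n ^ 12 := by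
    intro n hn
    rw [mem_Icc] at hn
    have h3 := prod_bd (fun i => tw χ (pc (κ i) (j i))) (2 * L) h2L (fun i n => hbox.bd i n) n
    rw [← e1] at h3
    have ht : 1 ≤ tau n := by
      unfold tau
      have : 0 < n.divisors.card := Finset.card_pos.2 ⟨1, Nat.one_mem_divisors.2 (by omega)⟩
      exact_mod_cast this
    have h4 : (2 * L) ^ r * tau n ^ r ≤ (2 * L) ^ 6 * tau n ^ 6 :=
      mul_le_mul (pow_le_pow_right₀ h2L hr) (pow_le_pow_right₀ ht hr) (by positivity) (by positivity)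
    have h5 := pow_le_pow_left₀ (norm_nonneg _) (h3.trans h4) 2
    refine h5.trans (le_of_eq ?_)
    ring
  have h6 : SS (tw χ (Pp κ j)) (192 * X) ≤ (2 * L) ^ 12 * ∑ n ∈ Icc 1 (192 * X), tau n ^ 12 := by
    unfold SS
    rw [mul_sum]
    exact sum_le_sum hpt
  have h7 := tau_mom 12 (192 * X)
  have hlogN : 1 + Real.log ((192 * X : ℕ) : ℝ) ≤ 3 * L := by
    have h10 : ((192 * X : ℕ) : ℝ) = 192 * X := by push_cast; ring
    rw [h10, Real.log_mul (by norm_num) hX0.ne']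
    have : Real.log 192 ≤ 192 - 1 := Real.log_le_sub_one_of_pos (by norm_num)
    rw [← hL]
    linarith
  have hlog0 : 0 ≤ 1 + Real.log ((192 * X : ℕ) : ℝ) := by
    have : 0 ≤ Real.log ((192 * X : ℕ) : ℝ) := Real.log_natCast_nonneg _
    linarith
  have h8 : ∑ n ∈ Icc 1 (192 * X), tau n ^ 12 ≤ 192 * X * (3 * L) ^ m := by
    rw [hm] at h7
    refine h7.trans ?_
    have h9 : (1 + Real.log ((192 * X : ℕ) : ℝ)) ^ m ≤ (3 * L) ^ m := pow_le_pow_left₀ hlog0 hlogN m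
    have h10 : ((192 * X : ℕ) : ℝ) = 192 * X := by push_cast; ring
    calc ((192 * X : ℕ) : ℝ) * (1 + Real.log ((192 * X : ℕ) : ℝ)) ^ m
        ≤ ((192 * X : ℕ) : ℝ) * (3 * L) ^ m := mul_le_mul_of_nonneg_left h9 (by positivity)
      _ = 192 * X * (3 * L) ^ m := by rw [h10]
  have hm2 : 4109 = 12 + m + 1 := by omega
  calc SS (tw χ (Pp κ j)) (192 * X) ≤ (2 * L) ^ 12 * (192 * X * (3 * L) ^ m) :=
        h6.trans (mul_le_mul_of_nonneg_left h8 (by positivity))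
    _ = (192 * 2 ^ 12 * 3 ^ m) * (X * L ^ (12 + m)) := by
        rw [mul_pow, mul_pow, pow_add]; ring
    _ = c * (X * L ^ (12 + m)) := by rw [hc]
    _ ≤ L * (X * L ^ (12 + m)) := mul_le_mul_of_nonneg_right hL1 (by positivity)
    _ = X * L ^ 4109 := by rw [hm2, pow_succ]; ring

/-- the first error term -/
private theorem BoxC_b (X K T0 H1 S L : ℝ) (A A2 K' A1 : ℕ) (hX : 0 < X) (hL : 10 ^ 8 ≤ L)
    (hK0 : 0 ≤ K) (hK : K ≤ 2 * L ^ A2) (hT0 : T0 = L ^ K') (hH10 : 0 ≤ H1) (hH1 : H1 ≤ X / L ^ A1)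
    (hS0 : 0 ≤ S) (hS : S ≤ X * L ^ 4109) (hA : A2 + 3 * K' + 4109 + A + 1 ≤ 2 * A1) :
    8 * X * K * (1000 * (T0 ^ 3 * H1 ^ 2 * (192 * X) / X ^ 4) * S) ≤ X / (4 * L ^ A) := by
  have hL0 : 0 < L := by linarith
  have hL1 : 1 ≤ L := by linarith
  have h1 : H1 ^ 2 ≤ X ^ 2 / L ^ (2 * A1) := by
    have := pow_le_pow_left₀ hH10 hH1 2
    rw [div_pow, ← pow_mul, mul_comm A1 2] at this
    exact this
  have h2 : T0 ^ 3 = L ^ (3 * K') := by rw [hT0, ← pow_mul, mul_comm]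
  have h3 : 8 * X * K * (1000 * (T0 ^ 3 * H1 ^ 2 * (192 * X) / X ^ 4) * S)
      ≤ 8 * X * (2 * L ^ A2) * (1000 * (L ^ (3 * K') * (X ^ 2 / L ^ (2 * A1)) * (192 * X) / X ^ 4) *
        (X * L ^ 4109)) := by
    rw [h2]
    gcongr
  refine h3.trans ?_
  have h4 : 8 * X * (2 * L ^ A2) * (1000 * (L ^ (3 * K') * (X ^ 2 / L ^ (2 * A1)) * (192 * X) / X ^ 4) *
        (X * L ^ 4109)) = 3072000 * X * L ^ (A2 + 3 * K' + 4109) / L ^ (2 * A1) := by
    rw [pow_add, pow_add]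
    field_simp
    ring
  rw [h4]
  have h5 : L ^ (A2 + 3 * K' + 4109 + A + 1) ≤ L ^ (2 * A1) := pow_le_pow_right₀ hL1 hA
  rw [div_le_div_iff₀ (by positivity) (by positivity)]
  calc 3072000 * X * L ^ (A2 + 3 * K' + 4109) * (4 * L ^ A)
      = 12288000 * (X * (L ^ (A2 + 3 * K' + 4109) * L ^ A)) := by ring
    _ ≤ L * (X * (L ^ (A2 + 3 * K' + 4109) * L ^ A)) :=
        mul_le_mul_of_nonneg_right (by linarith) (by positivity)
    _ = X * L ^ (A2 + 3 * K' + 4109 + A + 1) := by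
        rw [pow_succ L (A2 + 3 * K' + 4109 + A), pow_add L (A2 + 3 * K' + 4109) A]; ring
    _ ≤ X * L ^ (2 * A1) := mul_le_mul_of_nonneg_left h5 hX.le

/-- the second error term -/
private theorem BoxC_c (X K H T N S L P Q : ℝ) (A A2 : ℕ) (hX : 1 ≤ X) (hL : 1 ≤ L)
    (hK0 : 0 ≤ K) (hK : K ≤ 2 * L ^ A2) (hH : 0 < H) (hT : 0 < T) (hN0 : 0 ≤ N)
    (hN : N ≤ 576 * L * X)
    (hS0 : 0 ≤ S) (hS : S ≤ X * L ^ 4109) (hP : P ≤ H) (hP0 : 0 < P) (hHT : X ≤ H * T)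
    (hHT2 : X ^ 2 * Q ≤ (H * T) ^ 2) (hQ0 : 0 < Q)
    (h1 : 73728000 * L ^ (A2 + 4110 + A) ≤ P) (h2 : 73728000 * L ^ (A2 + 4110 + A) ≤ Q) :
    8 * X * K * (1000 * (1 / H ^ 2 * (1 / T + N / T ^ 2)) * S) ≤ X / (4 * L ^ A) := by
  have hX0 : 0 < X := by linarith
  have hL0 : 0 < L := by linarith
  have e1 : 1 / H ^ 2 * (1 / T) ≤ 1 / (P * X) := by
    rw [one_div_mul_one_div]
    apply div_le_div_of_nonneg_left (by norm_num) (by positivity)
    calc P * X ≤ H * (H * T) := mul_le_mul hP hHT hX0.le hH.le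
      _ = H ^ 2 * T := by ring
  have e2 : 1 / H ^ 2 * (N / T ^ 2) ≤ 576 * L / (X * Q) := by
    rw [div_mul_div_comm, one_mul]
    calc N / (H ^ 2 * T ^ 2) ≤ 576 * L * X / (X ^ 2 * Q) := by
          apply div_le_div₀ (by positivity) hN (by positivity)
          calc X ^ 2 * Q ≤ (H * T) ^ 2 := hHT2
            _ = H ^ 2 * T ^ 2 := by ring
      _ = 576 * L / (X * Q) := by field_simp
  have e3 : 1 / H ^ 2 * (1 / T + N / T ^ 2) ≤ 1 / (P * X) + 576 * L / (X * Q) := by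
    rw [mul_add]; linarith
  have e4 : 1 / (P * X) + 576 * L / (X * Q) ≤ (1 / X) * (576 * L * (1 / P + 1 / Q)) := by
    have : 1 / (P * X) ≤ (1 / X) * (576 * L * (1 / P)) := by
      have h3 : 1 / (P * X) = (1 / X) * (1 * (1 / P)) := by field_simp
      rw [h3]
      gcongr
      linarith
    have h4 : 576 * L / (X * Q) = (1 / X) * (576 * L * (1 / Q)) := by field_simp
    rw [h4]
    have h5 : (1 / X) * (576 * L * (1 / P + 1 / Q)) =
      (1 / X) * (576 * L * (1 / P)) + (1 / X) * (576 * L * (1 / Q)) := by ring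
    rw [h5]; linarith
  have hW0 : 0 ≤ 1 / H ^ 2 * (1 / T + N / T ^ 2) := by positivity
  have h3 : 8 * X * K * (1000 * (1 / H ^ 2 * (1 / T + N / T ^ 2)) * S)
      ≤ 8 * X * (2 * L ^ A2) * (1000 * ((1 / X) * (576 * L * (1 / P + 1 / Q))) * (X * L ^ 4109)) := by
    have := e3.trans e4
    gcongr
  refine h3.trans ?_
  have h4 : 8 * X * (2 * L ^ A2) * (1000 * ((1 / X) * (576 * L * (1 / P + 1 / Q))) * (X * L ^ 4109))
      = X * (9216000 * L ^ (A2 + 4110) * (1 / P + 1 / Q)) := by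
    rw [show A2 + 4110 = A2 + 1 + 4109 by ring, pow_add, pow_add]
    field_simp
    ring
  rw [h4]
  have h5 : 73728000 * L ^ (A2 + 4110 + A) * (1 / P) ≤ 1 := by
    rw [mul_one_div, div_le_one hP0]; exact h1
  have h6 : 73728000 * L ^ (A2 + 4110 + A) * (1 / Q) ≤ 1 := by
    rw [mul_one_div, div_le_one hQ0]; exact h2
  rw [pow_add _ (A2 + 4110) A] at h5 h6
  have h7 : 9216000 * L ^ (A2 + 4110) * (1 / P + 1 / Q) ≤ 1 / (4 * L ^ A) := by
    rw [le_div_iff₀ (by positivity)]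
    have e5 : 9216000 * L ^ (A2 + 4110) * (1 / P + 1 / Q) * (4 * L ^ A)
        = (73728000 * (L ^ (A2 + 4110) * L ^ A) * (1 / P) + 73728000 * (L ^ (A2 + 4110) * L ^ A) * (1 / Q)) / 2 := by
      ring
    rw [e5]; linarith
  calc X * (9216000 * L ^ (A2 + 4110) * (1 / P + 1 / Q)) ≤ X * (1 / (4 * L ^ A)) :=
        mul_le_mul_of_nonneg_left h7 hX0.le
    _ = X / (4 * L ^ A) := by ring

private theorem BoxC_a (X K S L : ℝ) (A : ℕ) (hX : 0 < X) (hL : 400 ≤ L)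
    (hK : L ^ (4110 + A) ≤ K) (hS : S ≤ X * L ^ 4109) :
    100 * S / K ^ 2 ≤ X / (4 * L ^ A) := by
  have hL0 : 0 < L := by linarith
  have hL1 : 1 ≤ L := by linarith
  have hK0 : 0 < K := lt_of_lt_of_le (by positivity) hK
  have h1 : (L ^ (4110 + A)) ^ 2 ≤ K ^ 2 := pow_le_pow_left₀ (by positivity) hK 2
  calc 100 * S / K ^ 2 ≤ 100 * (X * L ^ 4109) / (L ^ (4110 + A)) ^ 2 := by
        apply div_le_div₀ (by positivity) (by linarith) (by positivity) h1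
    _ ≤ X / (4 * L ^ A) := by
        rw [div_le_div_iff₀ (by positivity) (by positivity)]
        have h2 : L ^ (4110 + A) = L ^ 4109 * L * L ^ A := by
          rw [show 4110 + A = 4109 + 1 + A by ring, pow_add, pow_add]; ring
        have h3 : 1 ≤ L ^ 4109 := one_le_pow₀ hL1
        have h4 : 1 ≤ L ^ A := one_le_pow₀ hL1
        rw [h2]
        calc 100 * (X * L ^ 4109) * (4 * L ^ A) = 400 * (X * (L ^ 4109 * L ^ A)) := by ring
          _ ≤ L * (X * (L ^ 4109 * L ^ A)) := mul_le_mul_of_nonneg_right hL (by positivity)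
          _ = X * (L ^ 4109 * L * L ^ A) * 1 := by ring
          _ ≤ X * (L ^ 4109 * L * L ^ A) * (L ^ 4109 * L * L ^ A) := by
              apply mul_le_mul_of_nonneg_left _ (by positivity)
              have : 1 * 1 * 1 ≤ L ^ 4109 * L * L ^ A := by gcongr
              linarith
          _ = X * (L ^ 4109 * L * L ^ A) ^ 2 := by ring

theorem box_c (hpt : PTB) (e : ℝ) (he : 0 < e) (A B : ℕ) : ∃ A0 : ℕ, ∀ A1 : ℕ, A0 ≤ A1 → ∃ X0 : ℕ,
    ∀ X : ℕ, X0 ≤ X → ∀ (r d H H1 : ℕ) (χ : DirichletCharacter ℂ d) (κ : Fin r → Fin 3)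
      (j : Fin r → ℕ), r ≤ 6 → 1 ≤ d → (d : ℝ) ≤ Real.log X ^ B →
    (X : ℝ) ^ (1 / 6 + e) ≤ H → (H : ℝ) ≤ (X : ℝ) ^ (1 / 3 : ℝ) → H1 = ⌊X / Real.log X ^ A1⌋₊ →
    (∀ i, (2 : ℝ) ^ j i ≤ (X : ℝ) ^ (11 / 24 : ℝ)) →
    ∑ x ∈ Ico X (2 * X), ‖D (tw χ (Pp κ j)) H H1 x‖ ^ 2 ≤ X / Real.log X ^ A := by
  set A2 : ℕ := 4110 + A with hA2
  set e' : ℝ := min e (1 / 100) / 2 with he'def
  have he'0 : 0 < e' := by
    have : 0 < min e (1 / 100) := lt_min he (by norm_num)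
    positivity
  have he'1 : e' ≤ 1 / 100 := by
    have := min_le_right e (1 / 100 : ℝ)
    linarith
  have he'2 : e' ≤ e / 2 := by
    have := min_le_left e (1 / 100 : ℝ)
    linarith
  obtain ⟨K', X1, hI⟩ := box_i hpt e' he'0 he'1 (A + A2 + 1) B
  obtain ⟨X2, hSS⟩ := BoxC_ss
  refine ⟨A2 + 3 * K' + 4109 + A + 1, ?_⟩
  intro A1 hA1
  obtain ⟨X3, hX3⟩ := Pool.Agent.H80.LV.log_ge (10 ^ 8)
  obtain ⟨X4, hX4⟩ := Pool.Agent.H80.LV.log_pow_le (1 / 6) 73728000 (by norm_num) (by norm_num) (A2 + 4110 + A)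
  obtain ⟨X5, hX5⟩ := Pool.Agent.H80.LV.log_pow_le e 73728000 he (by norm_num) (A2 + 4110 + A)
  obtain ⟨X6, hX6⟩ := Pool.Agent.H80.LV.log_pow_le (1 / 3) 2 (by norm_num) (by norm_num) A1
  obtain ⟨X7, hX7⟩ := Pool.Agent.H80.LV.log_pow_le (1 / 2) 1 (by norm_num) (by norm_num) K'
  refine ⟨max (max (max X1 X2) (max X3 X4)) (max (max X5 X6) (max X7 8)), ?_⟩
  intro X hX r d H H1 χ κ j hr hd hdB hH hH' hH1 hj
  simp only [max_le_iff] at hX
  obtain ⟨⟨⟨hXa, hXb⟩, hXc, hXd⟩, ⟨hXe, hXf⟩, hXg, hXh⟩ := hX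
  have hX8 : (8 : ℝ) ≤ X := by exact_mod_cast hXh
  have hX0 : (0 : ℝ) < X := by linarith
  have hX1' : (1 : ℝ) ≤ X := by linarith
  have hL := hX3 X hXc
  have hP := hX4 X hXd
  have hQ := hX5 X hXe
  have h6 := hX6 X hXf
  have h7 := hX7 X hXg
  set L := Real.log X with hLdef
  have hL1 : 1 ≤ L := by linarith
  have hL0 : 0 < L := by linarith
  -- sizes
  have hHpos : (0 : ℝ) < H := lt_of_lt_of_le (Real.rpow_pos_of_pos hX0 _) hH
  have hH16 : (X : ℝ) ^ (1 / 6 : ℝ) ≤ H :=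
    (Real.rpow_le_rpow_of_exponent_le hX1' (by linarith)).trans hH
  have hLA1 : (0 : ℝ) < L ^ A1 := by positivity
  have hH1le : (H1 : ℝ) ≤ X / L ^ A1 := by
    rw [hH1]; exact Nat.floor_le (by positivity)
  have hH1X : (H1 : ℝ) ≤ X := by
    refine hH1le.trans ?_
    apply div_le_self hX0.le (one_le_pow₀ hL1)
  have hH1Xn : H1 ≤ X := by exact_mod_cast hH1X
  have hX13 : (X : ℝ) ^ (1 / 3 : ℝ) * (X : ℝ) ^ (2 / 3 : ℝ) = X := by
    rw [← Real.rpow_add hX0]; norm_num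
  have hX13b : (X : ℝ) ^ (2 / 3 : ℝ) = (X : ℝ) ^ (1 / 3 : ℝ) * (X : ℝ) ^ (1 / 3 : ℝ) := by
    rw [← Real.rpow_add hX0]; norm_num
  have hX132 : (2 : ℝ) ≤ (X : ℝ) ^ (1 / 3 : ℝ) := by
    have h8 : (8 : ℝ) ^ (1 / 3 : ℝ) = 2 := by
      rw [show (8 : ℝ) = 2 ^ (3 : ℝ) by norm_num, ← Real.rpow_mul (by norm_num)]; norm_num
    rw [← h8]
    exact Real.rpow_le_rpow (by norm_num) hX8 (by norm_num)
  have hHH1 : H ≤ H1 := by
    rw [hH1]
    apply Nat.le_floor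
    rw [le_div_iff₀ hLA1]
    calc (H : ℝ) * L ^ A1 ≤ (X : ℝ) ^ (1 / 3 : ℝ) * (X : ℝ) ^ (1 / 3 : ℝ) := by
          apply mul_le_mul hH' (by linarith) hLA1.le (by positivity)
      _ ≤ (X : ℝ) ^ (1 / 3 : ℝ) * (X : ℝ) ^ (2 / 3 : ℝ) := by
          apply mul_le_mul_of_nonneg_left _ (by positivity)
          exact Real.rpow_le_rpow_of_exponent_le hX1' (by norm_num)
      _ = X := hX13
  have hHX : H ≤ X := hHH1.trans hH1Xn
  have hRHS : (0 : ℝ) ≤ X / L ^ A := by positivity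
  -- boxes out of range
  have hsup : ∀ n, tw χ (Pp κ j) n ≠ 0 → ∏ i, 2 ^ j i ≤ n ∧ n ≤ 2 ^ r * ∏ i, 2 ^ j i := by
    intro n hn
    have e1 : tw χ (Pp κ j) = ∏ i, tw χ (pc (κ i) (j i)) := by
      unfold Pp
      exact tw_prod χ univ _ (by omega)
    rw [e1] at hn
    have h3 := prod_supp (fun i => tw χ (pc (κ i) (j i))) (fun i => 2 ^ j i) ?_ n hn
    · refine ⟨h3.1, h3.2.trans (le_of_eq ?_)⟩
      rw [prod_mul_distrib]; simp
    · intro i n hn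
      have h3 : pc (κ i) (j i) n ≠ 0 := by
        intro h0
        apply hn
        show (((pc (κ i) (j i)) n : ℝ) : ℂ) * χ (n : ZMod d) = 0
        rw [h0]; simp
      unfold pc seg at h3
      simp only [ArithmeticFunction.coe_mk] at h3
      split_ifs at h3 with h4
      · refine ⟨h4.2.1, ?_⟩
        have := h4.2.2
        rw [pow_succ] at this
        show n < 2 * 2 ^ j i
        omega
      · exact absurd rfl h3
  have hzero : (∀ n, X < n → n ≤ 3 * X → tw χ (Pp κ j) n = 0) →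
      ∑ x ∈ Ico X (2 * X), ‖D (tw χ (Pp κ j)) H H1 x‖ ^ 2 ≤ X / L ^ A := by
    intro h
    rw [sum_eq_zero]
    · exact hRHS
    · intro x hx
      rw [BoxC_D0 _ X H H1 x hx hHX hH1Xn h]; simp
  by_cases hc1 : ∏ i, 2 ^ j i ≤ 3 * X
  swap
  · apply hzero
    intro n _ hn
    by_contra h0
    have := (hsup n h0).1
    omega
  by_cases hc2 : X ≤ 2 ^ r * ∏ i, 2 ^ j i
  swap
  · apply hzero
    intro n hn _
    by_contra h0
    have := (hsup n h0).2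
    omega
  -- parameters
  set K : ℕ := ⌈L ^ A2⌉₊ with hKdef
  have hK1 : L ^ A2 ≤ K := Nat.le_ceil _
  have hLA2 : (1 : ℝ) ≤ L ^ A2 := one_le_pow₀ hL1
  have hK2 : (K : ℝ) ≤ 2 * L ^ A2 := by
    have := (Nat.ceil_lt_add_one (by positivity : 0 ≤ L ^ A2)).le
    linarith
  have hK3 : 1 ≤ K := by
    have : (1 : ℝ) ≤ K := hLA2.trans hK1
    exact_mod_cast this
  have hKH : K ≤ H := by
    have h8 : (K : ℝ) ≤ H := by
      refine (hK2.trans ?_).trans hH16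
      refine le_trans ?_ hP
      have h9 : L ^ A2 ≤ L ^ (A2 + 4110 + A) := pow_le_pow_right₀ hL1 (by omega)
      linarith [pow_pos hL0 (A2 + 4110 + A)]
    exact_mod_cast h8
  set N : ℕ := 192 * X with hNdef
  have h2r : 2 ^ r * ∏ i, 2 ^ j i ≤ N := by
    calc 2 ^ r * ∏ i, 2 ^ j i ≤ 2 ^ 6 * (3 * X) :=
          Nat.mul_le_mul (Nat.pow_le_pow_right (by norm_num) hr) hc1
      _ = N := by rw [hNdef]; ring
  have hS := hSS X hXb r d χ κ j hr hd hj hc1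
  set S := SS (tw χ (Pp κ j)) N with hSdef
  have hS0 : 0 ≤ S := sum_nonneg fun _ _ => sq_nonneg _
  set T0 : ℝ := L ^ K' with hT0def
  set T : ℝ := (X : ℝ) ^ (5 / 6 - e') with hTdef
  have hT01 : 1 ≤ T0 := one_le_pow₀ hL1
  have hT0T : T0 ≤ T := by
    have h8 : T0 ≤ (X : ℝ) ^ (1 / 2 : ℝ) := by linarith
    refine h8.trans ?_
    exact Real.rpow_le_rpow_of_exponent_le hX1' (by linarith)
  have hTpos : 0 < T := by linarith
  have hI' := hI X hXa r d N χ κ j hr hd hdB hj hc1 hc2 h2r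
  set I : ℝ := ∫ t in {t : ℝ | T0 ≤ |t| ∧ |t| ≤ T}, ‖DP (tw χ (Pp κ j)) N t‖ ^ 2 with hIdef
  have hconv := conv (tw χ (Pp κ j)) N X H H1 K (by omega) hK3 hKH hHH1 hH1Xn (by omega)
  -- the Plancherel bound
  have hpars : ∀ i ∈ range K, ∫ u, ‖Gw (tw χ (Pp κ j)) N (Real.log (1 + H / (X * (1 + (i : ℝ) / K))))
          (Real.log (1 + H1 / (X * (1 + (i : ℝ) / K)))) H H1 u‖ ^ 2
      ≤ 1000 * (T0 ^ 3 * H1 ^ 2 * N / X ^ 4
          + 1 / H ^ 2 * (1 / T + N * (1 + Real.log N) / T ^ 2)) * S + 4 / X ^ 2 * I := by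
    intro i _
    have hKr : (0 : ℝ) < K := by exact_mod_cast hK3
    have hi0 : (0 : ℝ) ≤ (i : ℝ) / K := by positivity
    set Xi : ℝ := X * (1 + (i : ℝ) / K) with hXi
    have hXiX : (X : ℝ) ≤ Xi := by rw [hXi]; nlinarith
    have hXi0 : 0 < Xi := by linarith
    have hH1pos : (0 : ℝ) < H1 := by
      have : (H : ℝ) ≤ H1 := by exact_mod_cast hHH1
      linarith
    have hup : ∀ h : ℝ, 0 ≤ h → Real.log (1 + h / Xi) ≤ h / X := by
      intro h hh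
      have h8 := Real.log_le_sub_one_of_pos (by positivity : 0 < 1 + h / Xi)
      have h9 : h / Xi ≤ h / X := div_le_div_of_nonneg_left hh hX0 hXiX
      linarith
    have hlo : ∀ h : ℝ, 0 ≤ h → 0 ≤ Real.log (1 + h / Xi) := by
      intro h hh
      apply Real.log_nonneg
      have : 0 ≤ h / Xi := by positivity
      linarith
    exact pars (tw χ (Pp κ j)) N X H H1 _ _ T0 T (by omega) hX1'
      (by exact_mod_cast (hK3.trans hKH)) (by exact_mod_cast hHH1) hH1X (hlo _ hHpos.le)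
      (hup _ hHpos.le) (hlo _ hH1pos.le) (hup _ hH1pos.le)
      (BoxC_hd X Xi H H1 hX0 hXiX hHpos (by exact_mod_cast hHH1)) hT01 hT0T
  set E : ℝ := 1000 * (T0 ^ 3 * H1 ^ 2 * N / X ^ 4
          + 1 / H ^ 2 * (1 / T + N * (1 + Real.log N) / T ^ 2)) * S + 4 / X ^ 2 * I with hE
  have hsumE : ∑ i ∈ range K, ∫ u, ‖Gw (tw χ (Pp κ j)) N (Real.log (1 + H / (X * (1 + (i : ℝ) / K))))
          (Real.log (1 + H1 / (X * (1 + (i : ℝ) / K)))) H H1 u‖ ^ 2 ≤ K * E := by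
    refine (sum_le_sum hpars).trans (le_of_eq ?_)
    simp [sum_const, card_range, nsmul_eq_mul]
  -- numerical bounds
  have hNr : (N : ℝ) = 192 * X := by rw [hNdef]; push_cast; ring
  have hlogN : 1 + Real.log N ≤ 3 * L := by
    rw [hNr, Real.log_mul (by norm_num) hX0.ne']
    have : Real.log 192 ≤ 192 - 1 := Real.log_le_sub_one_of_pos (by norm_num)
    linarith
  have hlogN0 : 0 ≤ 1 + Real.log (N : ℝ) := by
    have : 0 ≤ Real.log (N : ℝ) := Real.log_natCast_nonneg _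
    linarith
  have ea := BoxC_a X K S L A hX0 (by linarith) (by rw [← hA2]; exact hK1) hS
  have eb := BoxC_b X K T0 H1 S L A A2 K' A1 hX0 hL (by positivity) hK2 rfl (by positivity) hH1le hS0 hS
    (by omega)
  have hHT : (X : ℝ) ^ (1 + e / 2) ≤ H * T := by
    calc (X : ℝ) ^ (1 + e / 2) ≤ (X : ℝ) ^ ((1 / 6 + e) + (5 / 6 - e')) :=
          Real.rpow_le_rpow_of_exponent_le hX1' (by linarith)
      _ = (X : ℝ) ^ (1 / 6 + e) * T := by rw [Real.rpow_add hX0]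
      _ ≤ H * T := mul_le_mul_of_nonneg_right hH hTpos.le
  have hHT1 : (X : ℝ) ≤ H * T := by
    refine le_trans ?_ hHT
    nth_rewrite 1 [← Real.rpow_one (X : ℝ)]
    exact Real.rpow_le_rpow_of_exponent_le hX1' (by linarith)
  have hHT2 : (X : ℝ) ^ 2 * (X : ℝ) ^ e ≤ (H * T) ^ 2 := by
    have h8 := pow_le_pow_left₀ (by positivity) hHT 2
    refine le_trans (le_of_eq ?_) h8
    rw [← Real.rpow_natCast, ← Real.rpow_natCast, ← Real.rpow_mul hX0.le, ← Real.rpow_add hX0]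
    congr 1
    push_cast
    ring
  have ec := BoxC_c X K H T (N * (1 + Real.log N)) S L ((X : ℝ) ^ (1 / 6 : ℝ)) ((X : ℝ) ^ e) A A2
    hX1' hL1 (by positivity) hK2 hHpos hTpos (by positivity)
    (by rw [hNr]; rw [hNr] at hlogN; nlinarith) hS0 hS hH16 (by positivity) hHT1 hHT2 (by positivity) hP hQ
  have ed : 8 * X * K * (4 / X ^ 2 * I) ≤ X / (4 * L ^ A) := by
    have hI0 : 0 ≤ I := setIntegral_nonneg_of_ae (Filter.Eventually.of_forall fun _ => sq_nonneg _)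
    calc 8 * X * K * (4 / X ^ 2 * I) ≤ 8 * X * (2 * L ^ A2) * (4 / X ^ 2 * ((X : ℝ) ^ 2 / L ^ (A + A2 + 1))) := by
          gcongr
      _ = 64 * X / (L ^ A * L) := by
          have h8 : L ^ (A + A2 + 1) = L ^ A2 * (L ^ A * L) := by
            rw [show A + A2 + 1 = A2 + (A + 1) by omega, pow_add L A2 (A + 1), pow_succ L A]
          rw [h8]
          have h9 : L ^ A2 ≠ 0 := by positivity
          generalize L ^ A2 = q at h9
          field_simp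
          ring
      _ ≤ X / (4 * L ^ A) := by
          rw [div_le_div_iff₀ (by positivity) (by positivity)]
          have h8 : 0 < X * L ^ A := by positivity
          nlinarith
  have hfin : ∑ x ∈ Ico X (2 * X), ‖D (tw χ (Pp κ j)) H H1 x‖ ^ 2
      ≤ 100 * S / (K : ℝ) ^ 2 + 8 * X * (K * E) :=
    hconv.trans (by
      have := mul_le_mul_of_nonneg_left hsumE (by positivity : (0 : ℝ) ≤ 8 * X)
      linarith)
  have hE2 : 8 * X * (K * E) = 8 * X * K * (1000 * (T0 ^ 3 * H1 ^ 2 * (192 * X) / X ^ 4) * S)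
      + 8 * X * K * (1000 * (1 / H ^ 2 * (1 / T + N * (1 + Real.log N) / T ^ 2)) * S)
      + 8 * X * K * (4 / X ^ 2 * I) := by
    rw [hE]
    nth_rewrite 1 [hNr]
    ring
  rw [hE2] at hfin
  have h4 : X / (4 * L ^ A) + (X / (4 * L ^ A) + X / (4 * L ^ A) + X / (4 * L ^ A)) = X / L ^ A := by
    field_simp; ring
  linarith

end Pool.Agent.H88.PSI
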